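import Pool.Agent.helper83.LS.Spec

set_option autoImplicit false

namespace LSH

theorem DL_fx (z : Pt) : fx (fx z) = z := by simp [fx]

theorem DL_fy (z : Pt) : fy (fy z) = z := by simp [fy]

theorem DL_sw (z : Pt) : sw (sw z) = z := by simp [sw]

theorem DL_inv (g : Pt → Pt) (hg : ∀ z, g (g z) = z) (S : Finset Pt) :
    (S.image g).image g = S ∧ (S.image g).card = S.card := by
  have hinj : Function.Injective g := fun a b h => by rw [← hg a, ← hg b, h]
  refine ⟨?_, Finset.card_image_of_injective _ hinj⟩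
  rw [Finset.image_image]
  have : g ∘ g = id := funext hg
  rw [this, Finset.image_id]

theorem DL_gen (g : Pt → Pt) (hg : ∀ z, g (g z) = z)
    (h : ∀ a b : Pt, a.1 ≠ b.1 ∧ a.2 ≠ b.2 → (g a).1 ≠ (g b).1 ∧ (g a).2 ≠ (g b).2)
    (S : Finset Pt) (hS : Gen (S : Set Pt)) : Gen ((S.image g : Finset Pt) : Set Pt) := by
  intro a ha b hb hab
  rw [Finset.mem_coe, Finset.mem_image] at ha hb
  obtain ⟨a', ha', rfl⟩ := ha
  obtain ⟨b', hb', rfl⟩ := hb
  exact h a' b' (hS a' ha' b' hb' (fun h1 => hab (by rw [h1])))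

theorem DL (hSM : SM_stmt) : DL_stmt := by
  intro t hL S hc hG
  obtain ⟨-, -, -, hfx, hfy, hsw, hroot⟩ := hSM
  have low : ∀ (S : Finset Pt), S.card = t.size → Gen (S : Set Pt) →
      ∃ d, Draw t S d ∧ ∀ s ∈ S, d.root.2 ≤ s.2 := by
    intro S hc hG
    obtain ⟨h1, h2⟩ := DL_inv sw DL_sw S
    obtain ⟨d, hd, hr⟩ := hL (S.image sw) (h2.trans hc)
      (DL_gen sw DL_sw (fun a b h => ⟨h.2, h.1⟩) S hG)
    have h3 := hsw t _ d hd
    rw [h1] at h3
    refine ⟨_, h3, fun s hs => ?_⟩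
    rw [hroot]
    exact hr (sw s) (Finset.mem_image_of_mem _ hs)
  refine ⟨?_, low S hc hG, ?_⟩
  · obtain ⟨h1, h2⟩ := DL_inv fx DL_fx S
    obtain ⟨d, hd, hr⟩ := hL (S.image fx) (h2.trans hc)
      (DL_gen fx DL_fx (fun a b h => ⟨fun h' => h.1 (neg_injective h'), h.2⟩) S hG)
    have h3 := hfx t _ d hd
    rw [h1] at h3
    refine ⟨_, h3, fun s hs => ?_⟩
    rw [hroot]
    have h4 : d.root.1 ≤ -s.1 := hr (fx s) (Finset.mem_image_of_mem _ hs)
    show s.1 ≤ -d.root.1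
    linarith
  · obtain ⟨h1, h2⟩ := DL_inv fy DL_fy S
    obtain ⟨d, hd, hr⟩ := low (S.image fy) (h2.trans hc)
      (DL_gen fy DL_fy (fun a b h => ⟨h.1, fun h' => h.2 (neg_injective h')⟩) S hG)
    have h3 := hfy t _ d hd
    rw [h1] at h3
    refine ⟨_, h3, fun s hs => ?_⟩
    rw [hroot]
    have h4 : d.root.2 ≤ -s.2 := hr (fy s) (Finset.mem_image_of_mem _ hs)
    show s.2 ≤ -d.root.2
    linarith

end LSH
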